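import Pool.Agent.Lib_helper31.K4B.FinalV
import Pool.Agent.Lib_helper31.K4B.Cert
import Pool.Agent.Lib_helper60.K4.All

/-!
# The Win Number of `K_4` is at least `10`

The first player cannot force a win in the normal `K_4` game on `K_N` for any `N ≤ 9`.  In fact the
second player, as Breaker, can prevent the first player from owning a `K_4` at all.  The proof is a
certificate of 8274 positions (up to isomorphism), read by a checker which is proved sound in
`Pool.Agent.Lib_helper31.K4B.SoundV` and evaluated by the kernel.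
-/

namespace Pool.Agent.Results.MP_2c7f53_co.WinNumberGeTen

open Pool.Agent.K4G

/-- For every `N ≤ 9` the first player cannot force a win in the normal game `(K_N, K_4)`, so that
`w(K_4) ≥ 10`. -/
theorem result :
    (∀ N : ℕ, N ≤ 9 →
      ¬ FirstWins (⊤ : SimpleGraph (Fin 4)) (∅ : Finset (Sym2 (Fin N))) ∅) ∧
    10 ≤ winNumber (⊤ : SimpleGraph (Fin 4)) := by
  have h : ∀ N : ℕ, N ≤ 9 →
      ¬ FirstWins (⊤ : SimpleGraph (Fin 4)) (∅ : Finset (Sym2 (Fin N))) ∅ :=
    fun N hN => K4B.not_firstV K4B.ok_all (by norm_num) (by decide +kernel) hN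
  refine ⟨h, ?_⟩
  unfold winNumber
  refine le_csInf ⟨11, wins⟩ ?_
  intro w hw
  by_contra hc
  exact h 9 le_rfl (hw 9 (by omega))

end Pool.Agent.Results.MP_2c7f53_co.WinNumberGeTen
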