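import Pool.Agent.Lib_helper60.K4.All

/-!
# The Win Number of `K_4` is at most `11`

The first player wins the normal `K_4` game on `K_N` for every `N ≥ 11`.  The proof is a
certificate of 5428 positions (up to isomorphism), read by a checker which is proved sound in
`Pool.Agent.Lib_helper60.K4.Sound` and evaluated by the kernel.
-/

namespace Pool.Agent.Results.MP_2c7f53_co.WinNumberLeEleven

open Pool.Agent.K4G

/-- For every `N ≥ 11` the first player can force a win in the normal game `(K_N, K_4)`, so that
`w(K_4) ≤ 11`. -/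
theorem result :
    (∀ N : ℕ, 11 ≤ N →
      FirstWins (⊤ : SimpleGraph (Fin 4)) (∅ : Finset (Sym2 (Fin N))) ∅) ∧
    winNumber (⊤ : SimpleGraph (Fin 4)) ≤ 11 :=
  ⟨wins, Nat.sInf_le (fun N hN => wins N hN)⟩

end Pool.Agent.Results.MP_2c7f53_co.WinNumberLeEleven
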